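import Pool.Agent.H95.ND.Targets

/-!
# Goodness at a scale and regularity of the geodesic (module GDK)
-/

open MeasureTheory ProbabilityTheory
open scoped ENNReal

namespace Pool.Agent.H73.PD

open Pool.Agent.H99.NS Pool.Agent.H22.LPP Pool.Agent.H95.INS Pool.Agent.H76.ND Pool.Agent.H95.ND
open Pool.Agent.H97.NF (PEnv eA eB PN)

theorem lv_succ (i : ℕ) : lv (i + 1) = 32 * 64 ^ i := by
  unfold lv; rw [Nat.add_sub_cancel]

theorem lv_mono' {i j : ℕ} (h : i ≤ j) : lv i ≤ lv j := by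
  unfold lv
  have : (64 : ℤ) ^ (i - 1) ≤ 64 ^ (j - 1) := pow_le_pow_right₀ (by norm_num) (by omega)
  linarith

theorem lv_pos' (i : ℕ) : 0 < lv i := by unfold lv; positivity

theorem reach_oe (K : ℕ) : Reach (oK K) (eK K) := by
  have h := lv_pos' K
  refine ⟨?_, ?_⟩
  · show |(0 : ℤ) - 0| ≤ lv K - -lv K
    rw [sub_self, abs_zero]; linarith
  · exact ⟨lv K, by show lv K - -lv K + (0 - 0) = _; ring⟩

/-- The path seen from the center `z`. -/
noncomputable def seen (L : ℤ → ℤ) (z : Site) : ℤ → ℤ := fun r => L (r - (-z).1) + (-z).2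

theorem seen_apply (L : ℤ → ℤ) (z : Site) (r : ℤ) : seen L z r = L (z.1 + r) - z.2 := by
  show L (r - -z.1) + -z.2 = _
  rw [show r - -z.1 = z.1 + r by ring, sub_eq_add_neg]

theorem seen_near {ω : Env} {o e z : Site} {L : ℤ → ℤ} (h : Geod ω o e L) :
    Near (shiftE z ω) (o - z) (e - z) 0 (seen L z) := by
  refine ⟨?_, ?_⟩
  · have := conn_shift (-z) h.1
    rw [← sub_eq_add_neg, ← sub_eq_add_neg] at this
    exact this
  · rw [T_shift, wt_shift, sub_add_cancel, sub_add_cancel, sub_zero]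
    have e1 : (fun r => seen L z (r - z.1) + z.2) = L := by
      funext r
      rw [seen_apply, show z.1 + (r - z.1) = r by ring]; ring
    have e2 : (o - z).1 + z.1 = o.1 := by simp
    have e3 : (e - z).1 + z.1 = e.1 := by simp
    rw [e1, e2, e3, h.2]

theorem seen_sub (L : ℤ → ℤ) (z : Site) (r : ℤ) :
    seen L z r - seen L z 0 = L (z.1 + r) - L z.1 := by
  rw [seen_apply, seen_apply, add_zero]; ring

theorem seen_rg {L : ℤ → ℤ} {z : Site} {Xc : ℤ} {a K : ℕ} (hK : 3 ≤ K) (haK : a + 2 ≤ K)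
    (hj : |z.1| ≤ 24 * 64 ^ (K - 1)) (h : RGG Xc a (-lv K) (lv K) L) :
    RG Xc a (K - 2) 0 (seen L z) := by
  obtain ⟨n, rfl⟩ : ∃ n, K = n + 2 := ⟨K - 2, by omega⟩
  have e1 : n + 2 - 1 = n + 1 := by omega
  have e2 : n + 2 - 2 = n := by omega
  rw [e1] at hj
  rw [e2]
  have hK2 : lv (n + 2) = 2048 * 64 ^ n := by
    rw [lv_succ, pow_succ]; ring
  have hK1 : lv (n + 1) = 32 * 64 ^ n := lv_succ n
  have hp : (0 : ℤ) < 64 ^ n := by positivity
  have hj1 := abs_le.1 hj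
  rw [pow_succ] at hj1
  refine ⟨?_, ?_, ?_⟩
  · intro i hai hiI
    have hl : lv (i + 1) ≤ lv (n + 1) := lv_mono' (by omega)
    have hl0 := lv_pos' (i + 1)
    have hle : lv (i + 1) ≤ 64 ^ (i + 1) := by
      rw [lv_succ, pow_succ]; have : (0 : ℤ) < 64 ^ i := by positivity
      linarith
    have := h i hai (z.1 + -lv (i + 1)) z.1 (by rw [hK2]; linarith) (by linarith)
      (by rw [hK2]; linarith) (by linarith)
    rw [seen_sub, abs_sub_comm]
    exact this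
  · intro i hai hiI
    have hl : lv (i + 1) ≤ lv (n + 1) := lv_mono' (by omega)
    have hl0 := lv_pos' (i + 1)
    have hle : lv (i + 1) ≤ 64 ^ (i + 1) := by
      rw [lv_succ, pow_succ]; have : (0 : ℤ) < 64 ^ i := by positivity
      linarith
    have := h i hai z.1 (z.1 + lv (i + 1)) (by rw [hK2]; linarith) (by linarith)
      (by rw [hK2]; linarith) (by linarith)
    rw [seen_sub]
    exact this
  · intro r hr1 hr2
    have hl : lv a ≤ lv (n + 1) := lv_mono' (by omega)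
    have hle : lv a ≤ 64 ^ (a + 1) := by
      have h1 : lv a ≤ lv (a + 1) := lv_mono' (by omega)
      have h2 : (0 : ℤ) < 64 ^ a := by positivity
      rw [lv_succ] at h1
      rw [pow_succ]; linarith
    rw [seen_sub]
    rcases le_total 0 r with h0 | h0
    · exact h a le_rfl z.1 (z.1 + r) (by rw [hK2]; linarith) (by linarith)
        (by rw [hK2]; linarith) (by linarith)
    · have := h a le_rfl (z.1 + r) z.1 (by rw [hK2]; linarith) (by linarith)
        (by rw [hK2]; linarith) (by linarith)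
      rw [abs_sub_comm]
      exact this

theorem seen_dt {L : ℤ → ℤ} {z : Site} {K : ℕ} {D : ℝ} (hK : 3 ≤ K)
    (hj : |z.1| ≤ 24 * 64 ^ (K - 1))
    (h : ∀ t, -lv K ≤ t → t ≤ lv K → |(L t : ℝ)| ≤ D * 16 ^ K) :
    Dt (K - 2) 0 (seen L z) ≤ 32 * D := by
  obtain ⟨n, rfl⟩ : ∃ n, K = n + 2 := ⟨K - 2, by omega⟩
  have e1 : n + 2 - 1 = n + 1 := by omega
  have e2 : n + 2 - 2 = n := by omega
  rw [e1] at hj
  rw [e2]
  have hK2 : lv (n + 2) = 2048 * 64 ^ n := by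
    rw [lv_succ, pow_succ]; ring
  have hK1 : lv (n + 1) = 32 * 64 ^ n := lv_succ n
  have hp : (0 : ℤ) < 64 ^ n := by positivity
  have hj1 := abs_le.1 hj
  rw [pow_succ] at hj1
  have h0 := h z.1 (by rw [hK2]; linarith) (by rw [hK2]; linarith)
  have hm := h (z.1 + -lv (n + 1)) (by rw [hK2, hK1]; linarith) (by rw [hK2, hK1]; linarith)
  have hq := h (z.1 + lv (n + 1)) (by rw [hK2, hK1]; linarith) (by rw [hK2, hK1]; linarith)
  unfold Dt
  rw [seen_sub, seen_sub]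
  have h16 : (0 : ℝ) < 16 ^ (n + 1) := by positivity
  rw [div_le_iff₀ h16]
  have e3 : D * 16 ^ (n + 2) = 16 * D * 16 ^ (n + 1) := by ring
  rw [e3] at h0 hm hq
  refine max_le ?_ ?_
  · push_cast
    have := abs_sub (L (z.1 + -lv (n + 1)) : ℝ) (L z.1 : ℝ)
    linarith
  · push_cast
    have := abs_sub (L (z.1 + lv (n + 1)) : ℝ) (L z.1 : ℝ)
    linarith

theorem ends_dk {c : Cst} {Xc : ℤ} {k K a1 : ℕ} {j w : ℤ} (hk1 : 1 ≤ k) (ha1 : 1 ≤ a1)
    (hkK : k + 2 ≤ K) (hj : |j| ≤ 24 * 64 ^ (K - 1)) :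
    Ends (dk c Xc k) (oK K - zc j a1 w) (eK K - zc j a1 w) := by
  obtain ⟨n, rfl⟩ : ∃ n, K = n + 2 := ⟨K - 2, by omega⟩
  have e1 : n + 2 - 1 = n + 1 := by omega
  rw [e1] at hj
  have hK2 : lv (n + 2) = 2048 * 64 ^ n := by
    rw [lv_succ, pow_succ]; ring
  have hp : (0 : ℤ) < 64 ^ n := by positivity
  have hj1 := abs_le.1 hj
  rw [pow_succ] at hj1
  have hn : 256 * (dk c Xc k).n ≤ 32 * 64 ^ n := by
    show 256 * (8 * 64 ^ (k - 1)) ≤ (32 * 64 ^ n : ℤ)
    have h1 : (64 : ℤ) ^ (k - 1) * 64 = 64 ^ k := by rw [← pow_succ]; congr 1; omega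
    have h2 : (64 : ℤ) ^ k ≤ 64 ^ n := pow_le_pow_right₀ (by norm_num) (by omega)
    linarith
  refine ⟨?_, ?_, ?_, ?_⟩
  · show -lv (n + 2) - j ≤ _
    rw [hK2]; linarith
  · show _ ≤ lv (n + 2) - j
    rw [hK2]; linarith
  · show Even (-lv (n + 2) - j + (0 - (w * 16 ^ a1 + j % 2)))
    obtain ⟨b, rfl⟩ : ∃ b, a1 = b + 1 := ⟨a1 - 1, by omega⟩
    rw [hK2, pow_succ]
    have hd := Int.mul_ediv_add_emod j 2
    refine ⟨-(1024 * 64 ^ n) - j / 2 - j % 2 - w * 16 ^ b * 8, ?_⟩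
    linear_combination hd
  · rw [sub_eq_add_neg, sub_eq_add_neg]
    exact (reach_shift (-zc j a1 w)).2 (reach_oe _)

theorem pf_GDK (h1 : T_XFA) (h2 : T_SMF) : T_GDK := by
  intro hLam q δ C₀ c k₀ p₀ hq0 hq1 hGD hPK
  obtain ⟨K₁, hK₁⟩ := h1 (16 * c.A)
  refine ⟨max K₁ (40 * k₀), ?_⟩
  intro K a a1 k w j ω D hK hKa haa1 ha1k hkK hj hwin hgood hRF hRGG hD hDD
  obtain ⟨hX1, hSml, hX4, ha, hK3⟩ := hK₁ K a (le_trans (le_max_left _ _) hK) hKa
  have hk0a : k₀ ≤ a := by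
    have := le_trans (le_max_right K₁ (40 * k₀)) hK
    omega
  have hA := hPK.A1
  have hXA : Xf K + c.A ≤ 32 * 4 ^ k :=
    (h2 (Xf K) c.A a k (by linarith) (by linarith) hX1 hSml (by omega)).2.2.1
  have hgeo := (hLam ω (oK K) (eK K) (reach_oe K)).1
  have hz1 : (zc j a1 w).1 = j := rfl
  have hI : K - 2 + 1 = K - 1 := by omega
  have hEnds := ends_dk (c := c) (Xc := Xf K) (k := k) (K := K) (a1 := a1) (j := j) (w := w)
    (by omega) (by omega) hkK hj
  have hlv : lv (K - 1) + 24 * 64 ^ (K - 1) ≤ lv K := by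
    obtain ⟨n, rfl⟩ : ∃ n, K = n + 2 := ⟨K - 2, by omega⟩
    have e1 : n + 2 - 1 = n + 1 := by omega
    rw [e1, lv_succ, lv_succ, pow_succ]
    have hp : (0 : ℤ) < 64 ^ n := by positivity
    linarith
  have hj1 := abs_le.1 hj
  have hpos : |(seen (Lam ω (oK K) (eK K)) (zc j a1 w) 0 : ℝ)| ≤ 8 * 16 ^ k := by
    rw [seen_apply, add_zero, hz1]
    have hw := hwin
    obtain ⟨hw1, hw2⟩ := hw
    have hm1 := Int.emod_nonneg j (by norm_num : (2 : ℤ) ≠ 0)
    have hm2 := Int.emod_lt_of_pos j (by norm_num : (0 : ℤ) < 2)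
    have hle : (16 : ℤ) ^ a1 ≤ 16 ^ k := pow_le_pow_right₀ (by norm_num) ha1k
    have hone : (1 : ℤ) ≤ 16 ^ k := one_le_pow₀ (by norm_num)
    have key : |Lam ω (oK K) (eK K) j - (zc j a1 w).2| ≤ 8 * 16 ^ k := by
      show |Lam ω (oK K) (eK K) j - (w * 16 ^ a1 + j % 2)| ≤ 8 * 16 ^ k
      rw [abs_le]
      constructor
      · linarith
      · rw [add_mul] at hw2; linarith
    exact_mod_cast key
  have hG := (hGD c (Xf K) a (K - 2) k (shiftE (zc j a1 w) ω) (oK K - zc j a1 w)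
    (eK K - zc j a1 w) 0 (seen (Lam ω (oK K) (eK K)) (zc j a1 w)) hPK.hq hPK.K01 hPK.KK hPK.KB
    (by linarith [hPK.H1]) (by linarith) hX4 ha (by omega) (by omega)
    (by rw [hI]; show -lv K - j ≤ _; linarith) (by rw [hI]; show _ ≤ lv K - j; linarith)
    hgood hRF (seen_near hgeo) (by linarith [lv_pos' a]) (lv_pos' a).le hpos
    (seen_rg hK3 (by omega) hj hRGG) (by
      refine le_trans ?_ hDD
      exact mul_le_mul_of_nonneg_left (seen_dt hK3 hj hD) (by positivity))).1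
  exact hPK.ins (Xf K) k (by omega) hX1 hXA (shiftE (zc j a1 w) ω) (oK K - zc j a1 w)
    (eK K - zc j a1 w) hEnds hG

end Pool.Agent.H73.PD
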