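import Pool.Agent.H95.ND.Targets

/-!
# No window close to the axis without good scale (module NOG)
-/

open MeasureTheory ProbabilityTheory
open scoped ENNReal

namespace Pool.Agent.H73.PD

open Pool.Agent.H99.NS Pool.Agent.H22.LPP Pool.Agent.H95.INS Pool.Agent.H76.ND Pool.Agent.H95.ND
open Pool.Agent.H97.NF (PEnv eA eB PN)

theorem pf_NOG (h1 : T_CHB) : T_NOG := by
  intro q δ C₀ M c k₀ p₀ hq0 hq1 hM hPK hJC
  obtain ⟨K₁, hK₁⟩ := h1 q δ C₀ M c k₀ p₀ hq0 hq1 hPK hJC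
  refine ⟨6, by norm_num, K₁, ?_⟩
  intro K a a1 m hK hKa haa1 hm j D hD ρ
  have hcq : c.q = q := hPK.hq
  set R : ℝ := D * 16 ^ (K - a1) with hR
  have hp1 : (1 : ℝ) ≤ 16 ^ (K - a1) := one_le_pow₀ (by norm_num)
  have hR1 : 1 ≤ R := by rw [hR]; nlinarith
  set N : ℤ := ⌊R⌋ with hN
  have hN0 : 0 ≤ N := Int.floor_nonneg.2 (by linarith)
  have hNR : (N : ℝ) ≤ R := Int.floor_le R
  set ev : ℤ → Set PEnv := fun w => {E | ∀ k, a1 ≤ k → k < a1 + m →
      ¬ (goodAt c (Xf K) a (K - 2) k (zc j a1 w) (eA E) ∧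
        goodAt c (Xf K) a (K - 2) k (zc j a1 w) (eB E))} with hev
  have hsub : {E : PEnv | ∃ w : ℤ, |(w : ℝ)| * 16 ^ a1 ≤ D * 16 ^ K ∧ ∀ k, a1 ≤ k → k ≤ a1 + m →
      ¬ (goodAt c (Xf K) a (K - 2) k (zc j a1 w) (eA E) ∧
        goodAt c (Xf K) a (K - 2) k (zc j a1 w) (eB E))} ⊆
      ⋃ w ∈ Finset.Icc (-N) N, ev w := by
    rintro E ⟨w, hw, hE⟩
    simp only [Set.mem_iUnion]
    refine ⟨w, ?_, fun k hk1 hk2 => hE k hk1 hk2.le⟩
    have h16 : (0 : ℝ) < 16 ^ a1 := by positivity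
    have hsplit : (16 : ℝ) ^ K = 16 ^ (K - a1) * 16 ^ a1 := by
      rw [← pow_add]; congr 1; omega
    have hw' : |(w : ℝ)| ≤ R := by
      rw [hsplit, ← mul_assoc] at hw
      exact le_of_mul_le_mul_right hw h16
    have habs := abs_le.1 hw'
    have h2 : w ≤ N := Int.le_floor.2 habs.2
    have h3 : -w ≤ N := Int.le_floor.2 (by push_cast; linarith [habs.1])
    exact Finset.mem_Icc.2 ⟨by linarith, h2⟩
  have hone : ∀ w : ℤ, PN c.q ρ (ev w) ≤ ENNReal.ofReal (2 * Real.exp (-(M * m))) := by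
    intro w
    have h := (hK₁ K a a1 (a1 + m) (zc j a1 w) ρ hK hKa haa1 (Nat.le_add_right _ _) (by omega)).2
    rw [hcq]
    have hcast : (((a1 + m : ℕ) : ℝ) - (a1 : ℝ)) = (m : ℝ) := by push_cast; ring
    rw [hcast] at h
    exact h
  have hcard : ((Finset.Icc (-N) N).card : ℝ) ≤ 3 * R := by
    rw [Int.card_Icc]
    have e1 : (((N + 1 - -N).toNat : ℕ) : ℝ) = ((N + 1 - -N : ℤ) : ℝ) := by
      have : (((N + 1 - -N).toNat : ℕ) : ℤ) = N + 1 - -N := Int.toNat_of_nonneg (by linarith)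
      exact_mod_cast this
    rw [e1]; push_cast; linarith
  calc PN c.q ρ _ ≤ PN c.q ρ (⋃ w ∈ Finset.Icc (-N) N, ev w) := measure_mono hsub
    _ ≤ ∑ w ∈ Finset.Icc (-N) N, PN c.q ρ (ev w) := measure_biUnion_finset_le _ _
    _ ≤ ∑ _w ∈ Finset.Icc (-N) N, ENNReal.ofReal (2 * Real.exp (-(M * m))) :=
        Finset.sum_le_sum fun w _ => hone w
    _ = ((Finset.Icc (-N) N).card : ℝ≥0∞) * ENNReal.ofReal (2 * Real.exp (-(M * m))) := by
        rw [Finset.sum_const, nsmul_eq_mul]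
    _ ≤ ENNReal.ofReal (3 * R) * ENNReal.ofReal (2 * Real.exp (-(M * m))) := by
        gcongr
        rw [← ENNReal.ofReal_natCast]
        exact ENNReal.ofReal_le_ofReal hcard
    _ = ENNReal.ofReal (6 * D * 16 ^ (K - a1) * Real.exp (-(M * m))) := by
        rw [← ENNReal.ofReal_mul (by linarith)]
        congr 1; rw [hR]; ring

end Pool.Agent.H73.PD
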